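import Pool.Agent.Helper8.UT.AsymHigh
import Pool.Agent.Helper8.UT.Frozen

/-!
The upper triangular matrix walk over the field with two elements: the mixing times at levels
`1 - ε` and `ε` lie, to leading order, between `n / (2 J)` and `n / J`, where `J > 0` is the
asymptotic speed of the largest expected rank of a north-east block.
-/

set_option autoImplicit false
open Filter Topology

namespace Pool.Agent.Results.MP_3af7a4_pr.FactorTwo

open Pool.Agent.Helper8.UT

/-- `K n` is the transition matrix of the jump chain of the walk, `P n t` the law of `M(t)` started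
at the identity, `d n t` its total variation distance to the uniform law on the unitriangular
matrices, `T n ε` the `ε`-mixing time, and `c n a t` the expected rank of the block of `M(t)` formed
by its first `a` rows and its columns after the first `a`. -/
theorem result :
    ∀ (K : (n : ℕ) → Matrix (Matrix (Fin n) (Fin n) (ZMod 2)) (Matrix (Fin n) (Fin n) (ZMod 2)) ℝ),
      (∀ (n : ℕ) (A B : Matrix (Fin n) (Fin n) (ZMod 2)),
        K n A B = (1 / 2 : ℝ) * (if B = A then 1 else 0)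
          + (1 / (2 * ((n : ℝ) - 1))) *
            ∑ i : Fin n, ∑ j : Fin n,
              (if j.val = i.val + 1 ∧ B = A.updateRow i (A i + A j) then (1 : ℝ) else 0)) →
    ∀ (P : (n : ℕ) → ℝ → Matrix (Fin n) (Fin n) (ZMod 2) → ℝ),
      (∀ (n : ℕ) (t : ℝ) (B : Matrix (Fin n) (Fin n) (ZMod 2)),
        P n t B = ∑' k : ℕ, Real.exp (-(((n : ℝ) - 1) * t)) * (((n : ℝ) - 1) * t) ^ k
              / (k.factorial : ℝ) * ((K n) ^ k) 1 B) →
    ∀ (d : ℕ → ℝ → ℝ),
      (∀ (n : ℕ) (t : ℝ),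
        d n t = (1 / 2 : ℝ) * ∑ B : Matrix (Fin n) (Fin n) (ZMod 2),
          |P n t B - (if (∀ a : Fin n, B a a = 1) ∧ (∀ a b : Fin n, b < a → B a b = 0)
                then (1 / 2 : ℝ) ^ (n * (n - 1) / 2) else 0)|) →
    ∀ (T : ℕ → ℝ → ℝ),
      (∀ (n : ℕ) (ε : ℝ), T n ε = sInf {t : ℝ | 0 ≤ t ∧ d n t ≤ ε}) →
    ∀ (c : ℕ → ℕ → ℝ → ℝ),
      (∀ (n a : ℕ) (t : ℝ),
        c n a t = ∑ B : Matrix (Fin n) (Fin n) (ZMod 2), P n t B *
          ((Matrix.of fun i j : Fin n => if i.val < a ∧ a ≤ j.val then B i j else 0).rank : ℝ)) →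
    ∃ J : ℝ, 0 < J ∧
      Tendsto (fun k : ℕ => (⨆ q : ℕ × ℕ, c q.1 q.2 (k : ℝ)) / (k : ℝ)) atTop (𝓝 J) ∧
      (∀ ε : ℝ, 0 < ε → ε < 1 → ∀ δ : ℝ, 0 < δ → ∀ᶠ n : ℕ in atTop,
        (1 - δ) * (n : ℝ) / (2 * J) ≤ T n (1 - ε) ∧ T n ε ≤ (1 + δ) * (n : ℝ) / J) ∧
      (∀ ε : ℝ, 0 < ε → ε < 1 → ∀ δ : ℝ, 0 < δ → ∀ᶠ n : ℕ in atTop,
        T n ε / T n (1 - ε) ≤ 2 + δ) := by
  intro K hK P hP d hd T hT c hc
  have hPpm : ∀ n : ℕ, 2 ≤ n → ∀ t B, P n t B = pm n t B := by
    intro n hn t B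
    rw [hP n t B]
    exact frozen_series hn (K n) (hK n) t B
  have hdTV : ∀ n : ℕ, 2 ≤ n → ∀ t, d n t = TV n t := by
    intro n hn t
    rw [hd n t, ← frozen_d hn (K n) (hK n) t]
    simp only [hP n t]
  have hccur : ∀ (n a : ℕ) (t : ℝ), 0 ≤ t → c n a t = cur n a t := by
    intro n a t ht
    rw [hc n a t]
    rcases Nat.lt_or_ge n 2 with hn | hn
    · have hz : ∀ B : Matrix (Fin n) (Fin n) (ZMod 2), rk a B = 0 := by
        intro B
        unfold rk
        have : blk a B = 0 := by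
          funext i j
          unfold blk
          rw [if_neg]
          · rfl
          · rintro ⟨h1, h2⟩
            have := i.isLt
            have := j.isLt
            omega
        rw [this, Matrix.rank_zero]
      have h1 : cur n a t = 0 := by
        unfold cur
        have : (fun A : MM n => (rk a A : ℝ)) = fun _ => 0 := by
          funext A
          rw [hz A, Nat.cast_zero]
        rw [this, EE_const ht]
      rw [h1]
      refine Finset.sum_eq_zero fun B _ => ?_
      have h2 : (Matrix.of fun i j : Fin n => if i.val < a ∧ a ≤ j.val then B i j else 0).rank = 0 :=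
        hz B
      rw [h2, Nat.cast_zero, mul_zero]
    · classical
      have h1 : ∀ B : MM n, P n t B *
          ((Matrix.of fun i j : Fin n => if i.val < a ∧ a ≤ j.val then B i j else 0).rank : ℝ) =
          EE n t (fun A => (rk a B : ℝ) * if A = B then (1 : ℝ) else 0) := by
        intro B
        rw [hPpm n hn, EE_mul_const, mul_comm]
        rfl
      rw [Finset.sum_congr rfl (fun B _ => h1 B)]
      have h2 : ∑ B : MM n, EE n t (fun A => (rk a B : ℝ) * if A = B then (1 : ℝ) else 0) =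
          EE n t (fun A => ∑ B : MM n, (rk a B : ℝ) * if A = B then (1 : ℝ) else 0) := by
        unfold EE
        rw [Sg_sum_apply]
      rw [h2]
      unfold cur
      congr 1
      funext A
      simp
  have hJ := JJ_pos
  have hT0 : ∀ n ε, 0 ≤ T n ε := by
    intro n ε
    rw [hT]
    exact Real.sInf_nonneg fun t ht => ht.1
  have hmain : ∀ ε : ℝ, 0 < ε → ε < 1 → ∀ δ : ℝ, 0 < δ → ∀ᶠ n : ℕ in atTop,
      (1 - δ) * (n : ℝ) / (2 * JJ) ≤ T n (1 - ε) ∧ T n ε ≤ (1 + δ) * (n : ℝ) / JJ := by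
    intro ε hε0 hε1 δ hδ
    have hδ' : 0 < min δ (1 / 2) := lt_min hδ (by norm_num)
    have hlim : ∀ᶠ n : ℕ in atTop, 1 ≤ δ / 2 / JJ * (n : ℝ) :=
      (Tendsto.const_mul_atTop (by positivity) tendsto_natCast_atTop_atTop).eventually_ge_atTop 1
    filter_upwards [TV_low ε (min δ (1 / 2)) hε0 hδ', TV_high (1 - ε) 1 (by linarith) one_pos,
      TV_high ε (δ / 2) hε0 (by linarith), hlim, eventually_ge_atTop 2] with n h1 h2 h3 h4 hn
    refine ⟨?_, ?_⟩
    · rw [hT]
      refine le_csInf ?_ ?_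
      · obtain ⟨t, ht0, _, ht⟩ := h2
        exact ⟨t, ht0, by rw [hdTV n hn]; exact ht⟩
      · rintro t ⟨ht0, ht⟩
        rw [hdTV n hn] at ht
        by_contra hcon
        have h5 : t ≤ (1 - min δ (1 / 2)) * n / (2 * JJ) := by
          refine (not_le.1 hcon).le.trans ?_
          have h6 : (1 - δ) * (n : ℝ) ≤ (1 - min δ (1 / 2)) * n :=
            mul_le_mul_of_nonneg_right (by linarith [min_le_left δ (1 / 2)]) (Nat.cast_nonneg n)
          exact div_le_div_of_nonneg_right h6 (by positivity)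
        have := h1 t ht0 h5
        linarith
    · obtain ⟨t, ht0, ht1, ht⟩ := h3
      have hmem : t ∈ {t : ℝ | 0 ≤ t ∧ d n t ≤ ε} := ⟨ht0, by rw [hdTV n hn]; exact ht⟩
      have hbdd : BddBelow {t : ℝ | 0 ≤ t ∧ d n t ≤ ε} := ⟨0, fun s hs => hs.1⟩
      rw [hT]
      refine (csInf_le hbdd hmem).trans ?_
      refine ht1.trans ?_
      have e : (1 + δ) * (n : ℝ) / JJ = (1 + δ / 2) * n / JJ + δ / 2 / JJ * n := by ring
      rw [e]
      linarith
  refine ⟨JJ, hJ, ?_, hmain, ?_⟩
  · have h1 : (fun k : ℕ => (⨆ q : ℕ × ℕ, c q.1 q.2 (k : ℝ)) / (k : ℝ)) =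
        fun k : ℕ => HH (k : ℝ) / k := by
      funext k
      unfold HH
      congr 2
      funext q
      exact hccur q.1 q.2 k (Nat.cast_nonneg k)
    rw [h1]
    exact JJ_tendsto
  · intro ε hε0 hε1 δ hδ
    filter_upwards [hmain ε hε0 hε1 (δ / (4 + δ)) (by positivity), eventually_ge_atTop 1] with n h1 hn
    obtain ⟨h2, h3⟩ := h1
    have hn' : (1 : ℝ) ≤ n := by exact_mod_cast hn
    have e1 : (1 : ℝ) - δ / (4 + δ) = 4 / (4 + δ) := by field_simp; ring
    have e2 : (1 : ℝ) + δ / (4 + δ) = (4 + 2 * δ) / (4 + δ) := by field_simp; ring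
    rw [e1] at h2
    rw [e2] at h3
    have hpos : 0 < T n (1 - ε) := lt_of_lt_of_le (by positivity) h2
    rw [div_le_iff₀ hpos]
    have h4 : (4 + 2 * δ) / (4 + δ) * (n : ℝ) / JJ = (2 + δ) * (4 / (4 + δ) * n / (2 * JJ)) := by
      field_simp
      ring
    rw [h4] at h3
    exact h3.trans (mul_le_mul_of_nonneg_left h2 (by positivity))

end Pool.Agent.Results.MP_3af7a4_pr.FactorTwo
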