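import Mathlib
import Pool.Agent.UTM.ColsMix

/-!
The last `k` columns of the upper triangular matrix walk over the field with two elements: their
mixing time is asymptotically that of the last column exactly when `k` is `o(n)`, and then there is
cutoff.
-/

set_option autoImplicit false
open Filter Topology

namespace Pool.Agent.Results.MP_3af7a4_pr.LastColumns

/-- `K n` is the transition matrix of the jump chain (a uniformly chosen row `i ≤ n - 1`, then with
probability `1 / 2` the row `i + 1` is added to it), `P n t A` the law of `M(t)` started at `A`,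
`d n k t A` the total variation distance between the law of the last `k` columns of `M(t)` started
at `A` and its stationary law, `T n k ε` the mixing time of the last `k` columns (maximum over
all unitriangular `A`).  There is `v ∈ [3/16, 1/2]` (the speed of the front of the East process at
density `1/2`; `T n 1 ε / n → 1 / v` is the case `k = 1`) with:
(1) `T n k ε = n / v` up to `δ n`, uniformly for `1 ≤ k ≤ c(δ) n`;
(2) `T n k ε ≥ (1 / v + c / 2) n` for all `c n ≤ k ≤ n`;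
(3) for a sequence `1 ≤ k n ≤ n`, `T n (k n) ε / n → 1 / v` if and only if `k n / n → 0`, and then
the last `k n` columns have cutoff. -/
theorem result :
    ∀ (K : (n : ℕ) → Matrix (Matrix (Fin n) (Fin n) (ZMod 2)) (Matrix (Fin n) (Fin n) (ZMod 2)) ℝ),
      (∀ (n : ℕ) (A B : Matrix (Fin n) (Fin n) (ZMod 2)),
        K n A B = (1 / 2 : ℝ) * (if B = A then 1 else 0)
          + (1 / (2 * ((n : ℝ) - 1))) *
            ∑ i : Fin n, ∑ j : Fin n,
              (if j.val = i.val + 1 ∧ B = A.updateRow i (A i + A j) then (1 : ℝ) else 0)) →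
    ∀ (P : (n : ℕ) → ℝ → Matrix (Fin n) (Fin n) (ZMod 2) → Matrix (Fin n) (Fin n) (ZMod 2) → ℝ),
      (∀ (n : ℕ) (t : ℝ) (A B : Matrix (Fin n) (Fin n) (ZMod 2)),
        P n t A B = ∑' j : ℕ, Real.exp (-(((n : ℝ) - 1) * t)) * (((n : ℝ) - 1) * t) ^ j
              / (j.factorial : ℝ) * ((K n) ^ j) A B) →
    ∀ (d : (n : ℕ) → ℕ → ℝ → Matrix (Fin n) (Fin n) (ZMod 2) → ℝ),
      (∀ (n k : ℕ) (t : ℝ) (A : Matrix (Fin n) (Fin n) (ZMod 2)),
        d n k t A = (1 / 2 : ℝ) * ∑ C : Fin n → Fin k → ZMod 2,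
          |∑ B : Matrix (Fin n) (Fin n) (ZMod 2),
            (if ∀ (i j : Fin n) (c : Fin k), j.val + k = n + c.val → B i j = C i c then
              P n t A B - (if (∀ a : Fin n, B a a = 1) ∧ (∀ a b : Fin n, b < a → B a b = 0)
                then (1 / 2 : ℝ) ^ (n * (n - 1) / 2) else 0)
              else 0)|) →
    ∀ (T : ℕ → ℕ → ℝ → ℝ),
      (∀ (n k : ℕ) (ε : ℝ), T n k ε = sInf {t : ℝ | 0 ≤ t ∧
        ∀ A : Matrix (Fin n) (Fin n) (ZMod 2),
          (∀ a : Fin n, A a a = 1) ∧ (∀ a b : Fin n, b < a → A a b = 0) → d n k t A ≤ ε}) →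
    ∃ v : ℝ, 3 / 16 ≤ v ∧ v ≤ 1 / 2 ∧
      (∀ δ : ℝ, 0 < δ → ∃ c : ℝ, 0 < c ∧ ∀ ε : ℝ, 0 < ε → ε < 1 → ∀ᶠ n : ℕ in atTop,
        ∀ k : ℕ, 1 ≤ k → (k : ℝ) ≤ c * n → |T n k ε - 1 / v * n| ≤ δ * n) ∧
      (∀ c : ℝ, 0 < c → c ≤ 1 → ∀ ε : ℝ, 0 < ε → ε < 1 → ∀ᶠ n : ℕ in atTop,
        ∀ k : ℕ, c * n ≤ k → k ≤ n → (1 / v + c / 2) * n ≤ T n k ε) ∧
      (∀ k : ℕ → ℕ, (∀ n : ℕ, 1 ≤ n → 1 ≤ k n ∧ k n ≤ n) → ∀ ε : ℝ, 0 < ε → ε < 1 →
        (Tendsto (fun n : ℕ => T n (k n) ε / n) atTop (𝓝 (1 / v)) ↔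
          Tendsto (fun n : ℕ => (k n : ℝ) / n) atTop (𝓝 0)) ∧
        (Tendsto (fun n : ℕ => (k n : ℝ) / n) atTop (𝓝 0) →
          Tendsto (fun n : ℕ => T n (k n) ε / T n (k n) (1 - ε)) atTop (𝓝 1))) := by
  intro K hK P hP d hd T hT
  have hK' : Pool.Agent.UTM.IsKernel K := hK
  have hlaw : ∀ n t A B, P n t A B = Pool.Agent.UTM.Es.law K n t A B := fun n t A B => hP n t A B
  have hdC : ∀ n k t A, d n k t A = Pool.Agent.UTM.Es.dC K n k t A := by
    intro n k t A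
    rw [hd n k t A]
    unfold Pool.Agent.UTM.Es.dC
    congr 1
    apply Finset.sum_congr rfl
    intro C _
    congr 1
    unfold Pool.Agent.UTM.Es.xx
    apply Finset.sum_congr rfl
    intro B _
    rw [hlaw]
    by_cases h : Pool.Agent.UTM.Es.Agr B C
    · rw [if_pos h, if_pos (show ∀ (i j : Fin n) (c : Fin k), j.val + k = n + c.val → B i j = C i c
        from h)]
      congr 1
      unfold Pool.Agent.UTM.Es.piw
      by_cases hB : Pool.Agent.UTM.IsUni B
      · rw [if_pos hB, if_pos (show (∀ a : Fin n, B a a = 1) ∧ (∀ a b : Fin n, b < a → B a b = 0)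
          from hB)]
      · rw [if_neg hB, if_neg (show ¬ ((∀ a : Fin n, B a a = 1) ∧
          (∀ a b : Fin n, b < a → B a b = 0)) from hB)]
    · rw [if_neg h, if_neg (show ¬ (∀ (i j : Fin n) (c : Fin k), j.val + k = n + c.val →
        B i j = C i c) from h)]
  have hTx : ∀ n k ε, T n k ε = Pool.Agent.UTM.Es.Tx K n k ε := by
    intro n k ε
    rw [hT n k ε]
    unfold Pool.Agent.UTM.Es.Tx Pool.Agent.UTM.Es.Sx
    congr 1
    ext t
    constructor
    · rintro ⟨h1, h2⟩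
      exact ⟨h1, fun A hA => by rw [← hdC]; exact h2 A hA⟩
    · rintro ⟨h1, h2⟩
      exact ⟨h1, fun A hA => by rw [hdC]; exact h2 A hA⟩
  have hTeq : T = Pool.Agent.UTM.Es.Tx K := by
    funext n k ε
    exact hTx n k ε
  rw [hTeq]
  refine ⟨Pool.Agent.UTM.Es.vv, Pool.Agent.UTM.Es.vv_ge, Pool.Agent.UTM.Es.vv_le_half, ?_, ?_, ?_⟩
  · intro δ hδ
    exact Pool.Agent.UTM.Es.Tx_small hK' δ hδ
  · intro c hc hc1 ε hε hε1
    exact Pool.Agent.UTM.Es.Tx_large hK' c hc hc1 ε hε hε1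
  · intro k hk ε hε hε1
    refine ⟨⟨fun h => ?_, fun h => ?_⟩, fun h => ?_⟩
    · exact Pool.Agent.UTM.Es.tendsto_of_Tx hK' k (fun n hn => (hk n hn).2) ε hε hε1 h
    · exact Pool.Agent.UTM.Es.Tx_tendsto hK' k (fun n hn => (hk n hn).1) h ε hε hε1
    · exact Pool.Agent.UTM.Es.Tx_ratio hK' k (fun n hn => (hk n hn).1) h ε hε hε1

end Pool.Agent.Results.MP_3af7a4_pr.LastColumns
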