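import Mathlib
import Pool.Agent.UTM.Lower
import Pool.Agent.UTM.FrontFinal

/-!
The whole upper triangular matrix walk over the field with two elements is not mixed at time
`7 n`, while the front of its last column (an East process) moves at speed at least `3 / 16`.
-/

set_option autoImplicit false
open Filter Topology

namespace Pool.Agent.Results.MP_3af7a4_pr.SlowerThanLastColumn

/-- `K n` is the transition matrix of the jump chain of the walk (a uniformly chosen row
`i ≤ n - 1`, then with probability `1 / 2` the row `i + 1` is added to it), `P n t` the law of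
`M(t)` started at the identity, `d n t` its total variation distance to the uniform law on the
unitriangular matrices.  (1) For every `ε > 0` and all large `n`, `d n t > 1 - ε` at all times
`t ≤ 7 n`.  (2) For all `δ, ε > 0` and all large `n`, at every time `t ≥ δ n` the last column has,
with probability more than `1 - ε`, a nonzero entry at height at least
`min (3 t / 16) ((1 - δ) n)` above its bottom entry. -/
theorem result :
    ∀ (K : (n : ℕ) → Matrix (Matrix (Fin n) (Fin n) (ZMod 2)) (Matrix (Fin n) (Fin n) (ZMod 2)) ℝ),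
      (∀ (n : ℕ) (A B : Matrix (Fin n) (Fin n) (ZMod 2)),
        K n A B = (1 / 2 : ℝ) * (if B = A then 1 else 0)
          + (1 / (2 * ((n : ℝ) - 1))) *
            ∑ i : Fin n, ∑ j : Fin n,
              (if j.val = i.val + 1 ∧ B = A.updateRow i (A i + A j) then (1 : ℝ) else 0)) →
    ∀ (P : (n : ℕ) → ℝ → Matrix (Fin n) (Fin n) (ZMod 2) → ℝ),
      (∀ (n : ℕ) (t : ℝ) (B : Matrix (Fin n) (Fin n) (ZMod 2)),
        P n t B = ∑' k : ℕ, Real.exp (-(((n : ℝ) - 1) * t)) * (((n : ℝ) - 1) * t) ^ k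
              / (k.factorial : ℝ) * ((K n) ^ k) 1 B) →
    ∀ (d : ℕ → ℝ → ℝ),
      (∀ (n : ℕ) (t : ℝ),
        d n t = (1 / 2 : ℝ) * ∑ B : Matrix (Fin n) (Fin n) (ZMod 2),
          |P n t B - (if (∀ a : Fin n, B a a = 1) ∧ (∀ a b : Fin n, b < a → B a b = 0)
                then (1 / 2 : ℝ) ^ (n * (n - 1) / 2) else 0)|) →
    (∀ ε : ℝ, 0 < ε → ∀ᶠ n : ℕ in atTop, ∀ t : ℝ, 0 ≤ t → t ≤ 7 * (n : ℝ) → 1 - ε < d n t) ∧
    (∀ δ ε : ℝ, 0 < δ → 0 < ε → ∀ᶠ n : ℕ in atTop, ∀ t : ℝ, δ * (n : ℝ) ≤ t →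
      ∀ S : Finset (Matrix (Fin n) (Fin n) (ZMod 2)),
        (∀ B : Matrix (Fin n) (Fin n) (ZMod 2), B ∈ S ↔
          ∃ i j : Fin n, j.val + 1 = n ∧ B i j ≠ 0 ∧
            min (3 / 16 * t) ((1 - δ) * (n : ℝ)) ≤ (n : ℝ) - 1 - (i.val : ℝ)) →
        1 - ε < ∑ B ∈ S, P n t B) := by
  intro K hK P hP d hd
  have hK' : Pool.Agent.UTM.IsKernel K := hK
  have hmu : ∀ n t B, P n t B = Pool.Agent.UTM.mu K n t B := fun n t B => hP n t B
  have hdist : ∀ n t, d n t = Pool.Agent.UTM.dist1 K n t := by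
    intro n t
    rw [hd n t]
    unfold Pool.Agent.UTM.dist1
    congr 1
    apply Finset.sum_congr rfl
    intro B _
    rw [hmu]
    by_cases hB : Pool.Agent.UTM.IsUni B
    · rw [if_pos hB, if_pos (show (∀ a : Fin n, B a a = 1) ∧ (∀ a b : Fin n, b < a → B a b = 0) from hB)]
    · rw [if_neg hB, if_neg (show ¬ ((∀ a : Fin n, B a a = 1) ∧ (∀ a b : Fin n, b < a → B a b = 0)) from hB)]
  refine ⟨?_, ?_⟩
  · intro ε hε
    filter_upwards [Pool.Agent.UTM.lower_bound hK' ε hε] with n hn t ht0 ht1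
    rw [hdist]
    exact hn t ht0 ht1
  · intro δ ε hδ hε
    filter_upwards [Pool.Agent.UTM.front_bound hK' δ ε hδ hε, eventually_ge_atTop 2] with n hn hn2 t ht S hS
    have h1 := hn t ht
    have ht0 : 0 ≤ t := le_trans (by positivity) ht
    have h2 := Pool.Agent.UTM.sum_mu hK' n hn2 ht0
    have h3 := Finset.sum_filter_add_sum_filter_not Finset.univ
      (fun B : Matrix (Fin n) (Fin n) (ZMod 2) =>
        Pool.Agent.UTM.High (min (3 / 16 * t) ((1 - δ) * (n : ℝ))) B)
      (fun B => Pool.Agent.UTM.mu K n t B)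
    have h4 : S = Finset.univ.filter (fun B : Matrix (Fin n) (Fin n) (ZMod 2) =>
        Pool.Agent.UTM.High (min (3 / 16 * t) ((1 - δ) * (n : ℝ))) B) := by
      ext B
      rw [hS B, Finset.mem_filter]
      constructor
      · intro h
        exact ⟨Finset.mem_univ _, h⟩
      · intro h
        exact h.2
    rw [Finset.sum_congr rfl (fun B _ => hmu n t B), h4]
    linarith

end Pool.Agent.Results.MP_3af7a4_pr.SlowerThanLastColumn
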