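import Mathlib
import Pool.Agent.UTM.Lower
import Pool.Agent.Helper8.UT.AsymHigh
import Pool.Agent.Helper8.UT.Frozen
import Pool.Agent.Helper8.UT.AsymLow
import Pool.Agent.CutSeq.TForm
import Pool.Agent.CutSeq.Win
import Pool.Agent.CutSeq.Dens
import Pool.Agent.CutSeq.Sqn
import Pool.Agent.CutSeq.Lim

/-!
The upper triangular matrix walk over the field with two elements: cutoff along sequences of sizes
with bounded ratios, a bound for the ratio of the mixing times for almost all sizes, and almost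
cutoff for a positive proportion of the sizes.
-/

set_option autoImplicit false
open Filter Topology

namespace Pool.Agent.Results.MP_3af7a4_pr.WindowCutoff

/-- `K n` is the transition matrix of the jump chain of the walk (a uniformly chosen row
`i ≤ n - 1`, then with probability `1 / 2` the row `i + 1` is added to it), `P n t` the law of
`M(t)` started at the identity, `d n t` its total variation distance to the uniform law on the
unitriangular matrices, `T n ε` the `ε`-mixing time.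
(1) The sizes `N` with `T N ε > (29 / 21 + δ) T N (1 - ε)` have natural density `0`.
(2) The sizes `N` with `T N ε ≤ (1 + δ) T N (1 - ε)` have positive lower density.
(3) For `ρ > 1` and all large `M` some size `N` with `M ≤ N ≤ ρ M` has
`T N ε ≤ (F(ρ) + δ) T N (1 - ε)`, where `F(ρ) = max 1 (min 29 (16 + 26 / ρ) / 21)`; so `F(ρ) = 1` for
`ρ ≥ 26 / 5`.
(4) For every `ρ > 26 / 5` there is cutoff along a sequence of sizes whose consecutive ratios are at
most `ρ`.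
(5) If `T n ε₀ / n` converges for one `ε₀`, then there is cutoff (along all sizes). -/
theorem result :
    ∀ (K : (n : ℕ) → Matrix (Matrix (Fin n) (Fin n) (ZMod 2)) (Matrix (Fin n) (Fin n) (ZMod 2)) ℝ),
      (∀ (n : ℕ) (A B : Matrix (Fin n) (Fin n) (ZMod 2)),
        K n A B = (1 / 2 : ℝ) * (if B = A then 1 else 0)
          + (1 / (2 * ((n : ℝ) - 1))) *
            ∑ i : Fin n, ∑ j : Fin n,
              (if j.val = i.val + 1 ∧ B = A.updateRow i (A i + A j) then (1 : ℝ) else 0)) →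
    ∀ (P : (n : ℕ) → ℝ → Matrix (Fin n) (Fin n) (ZMod 2) → ℝ),
      (∀ (n : ℕ) (t : ℝ) (B : Matrix (Fin n) (Fin n) (ZMod 2)),
        P n t B = ∑' k : ℕ, Real.exp (-(((n : ℝ) - 1) * t)) * (((n : ℝ) - 1) * t) ^ k
              / (k.factorial : ℝ) * ((K n) ^ k) 1 B) →
    ∀ (d : ℕ → ℝ → ℝ),
      (∀ (n : ℕ) (t : ℝ),
        d n t = (1 / 2 : ℝ) * ∑ B : Matrix (Fin n) (Fin n) (ZMod 2),
          |P n t B - (if (∀ a : Fin n, B a a = 1) ∧ (∀ a b : Fin n, b < a → B a b = 0)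
                then (1 / 2 : ℝ) ^ (n * (n - 1) / 2) else 0)|) →
    ∀ (T : ℕ → ℝ → ℝ),
      (∀ (n : ℕ) (ε : ℝ), T n ε = sInf {t : ℝ | 0 ≤ t ∧ d n t ≤ ε}) →
    (∀ ε δ : ℝ, 0 < ε → ε < 1 → 0 < δ →
      Tendsto (fun M : ℕ => ({N : ℕ | N < M ∧ (29 / 21 + δ) * T N (1 - ε) < T N ε}.ncard : ℝ) / M)
        atTop (𝓝 0)) ∧
    (∀ ε δ : ℝ, 0 < ε → ε < 1 → 0 < δ → ∃ c : ℝ, 0 < c ∧ ∀ᶠ M : ℕ in atTop,
      c * M ≤ ({N : ℕ | N < M ∧ T N ε ≤ (1 + δ) * T N (1 - ε)}.ncard : ℝ)) ∧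
    (∀ ρ ε δ : ℝ, 1 < ρ → 0 < ε → ε < 1 → 0 < δ → ∀ᶠ M : ℕ in atTop,
      ∃ N : ℕ, M ≤ N ∧ (N : ℝ) ≤ ρ * M ∧
        T N ε ≤ (max 1 (min 29 (16 + 26 / ρ) / 21) + δ) * T N (1 - ε)) ∧
    (∀ ρ : ℝ, 26 / 5 < ρ → ∃ n : ℕ → ℕ, StrictMono n ∧ (∀ k, (n (k + 1) : ℝ) ≤ ρ * n k) ∧
      ∀ ε : ℝ, 0 < ε → ε < 1 → Tendsto (fun k => T (n k) ε / T (n k) (1 - ε)) atTop (𝓝 1)) ∧
    (∀ ε₀ L : ℝ, 0 < ε₀ → ε₀ < 1 → Tendsto (fun n : ℕ => T n ε₀ / n) atTop (𝓝 L) →
      ∀ ε : ℝ, 0 < ε → ε < 1 → Tendsto (fun n : ℕ => T n ε / T n (1 - ε)) atTop (𝓝 1)) := by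
  intro K hK P hP d hd T hT
  have hK' : Pool.Agent.UTM.IsKernel K := hK
  -- the distance is `dd`
  have hD : ∀ n, 2 ≤ n → ∀ t, 0 ≤ t → d n t = Pool.Agent.CutSeq.dd n t := by
    intro n hn t ht
    rw [hd n t]
    exact Pool.Agent.CutSeq.frozen_dd K hK P hP n hn t ht
  -- `d 0 0 = 0` and `d 1 0 = 0`
  have hsmall : ∀ n : ℕ, n < 2 → d n 0 = 0 := by
    intro n hn
    rw [hd n 0]
    have hP0 : ∀ B : Matrix (Fin n) (Fin n) (ZMod 2), P n 0 B = if (1 : Matrix (Fin n) (Fin n) (ZMod 2)) = B then 1 else 0 := by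
      intro B
      rw [hP n 0 B, tsum_eq_single 0]
      · simp [Matrix.one_apply]
      · intro k hk
        simp [hk]
    have h1 : ∀ B : Matrix (Fin n) (Fin n) (ZMod 2),
        |P n 0 B - (if (∀ a : Fin n, B a a = 1) ∧ (∀ a b : Fin n, b < a → B a b = 0)
                then (1 / 2 : ℝ) ^ (n * (n - 1) / 2) else 0)| = 0 := by
      intro B
      rw [hP0 B, abs_eq_zero]
      have hpow : (1 / 2 : ℝ) ^ (n * (n - 1) / 2) = 1 := by
        interval_cases n <;> norm_num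
      rw [hpow]
      have hiff : (1 : Matrix (Fin n) (Fin n) (ZMod 2)) = B ↔
          ((∀ a : Fin n, B a a = 1) ∧ (∀ a b : Fin n, b < a → B a b = 0)) := by
        constructor
        · intro h
          subst h
          refine ⟨fun a => Matrix.one_apply_eq a, fun a b hab => Matrix.one_apply_ne (ne_of_gt hab)⟩
        · rintro ⟨h2, _⟩
          ext a b
          have hab : a = b := by
            apply Fin.ext
            have := a.isLt
            have := b.isLt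
            omega
          subst hab
          rw [Matrix.one_apply_eq, h2]
      by_cases h : (1 : Matrix (Fin n) (Fin n) (ZMod 2)) = B
      · rw [if_pos h, if_pos (hiff.mp h), sub_self]
      · rw [if_neg h, if_neg (fun h3 => h (hiff.mpr h3)), sub_self]
    rw [Finset.sum_eq_zero fun B _ => h1 B, mul_zero]
  have hT0 : ∀ n ε, 0 ≤ T n ε := by
    intro n ε
    rw [hT]
    exact Real.sInf_nonneg fun t ht => ht.1
  have hmono : ∀ ε : ℝ, 0 < ε → Monotone fun n => T n ε := fun ε hε =>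
    Pool.Agent.CutSeq.T_mono d hD (hsmall 0 (by norm_num)) (hsmall 1 (by norm_num)) T hT ε hε
  -- nonempty sets
  have hne : ∀ n, 2 ≤ n → ∀ ε : ℝ, 0 < ε → ∃ t : ℝ, 0 ≤ t ∧ d n t ≤ ε := by
    intro n hn ε hε
    obtain ⟨t, ht0, ht⟩ := Pool.Agent.CutSeq.exists_dd_le n ε hε
    exact ⟨t, ht0, by rw [hD n hn t ht0]; exact ht⟩
  -- lower bound by `7 n`
  have hlow7 : ∀ ε : ℝ, 0 < ε → ε < 1 → ∀ᶠ n : ℕ in atTop, 7 * (n : ℝ) ≤ T n ε := by
    intro ε hε hε1
    have hdist : ∀ n t, d n t = Pool.Agent.UTM.dist1 K n t := by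
      intro n t
      rw [hd n t]
      unfold Pool.Agent.UTM.dist1
      congr 1
      apply Finset.sum_congr rfl
      intro B _
      rw [show P n t B = Pool.Agent.UTM.mu K n t B from hP n t B]
      by_cases hB : Pool.Agent.UTM.IsUni B
      · rw [if_pos hB, if_pos (show (∀ a : Fin n, B a a = 1) ∧ (∀ a b : Fin n, b < a → B a b = 0) from hB)]
      · rw [if_neg hB, if_neg (show ¬ ((∀ a : Fin n, B a a = 1) ∧ (∀ a b : Fin n, b < a → B a b = 0)) from hB)]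
    filter_upwards [Pool.Agent.UTM.lower_bound hK' (1 - ε) (by linarith), eventually_ge_atTop 2]
      with n hn hn2
    rw [hT]
    apply le_csInf (hne n hn2 ε hε)
    rintro t ⟨ht0, ht⟩
    by_contra hcon
    have h1 := hn t ht0 (not_le.1 hcon).le
    rw [← hdist] at h1
    linarith
  -- the bounds by `J`
  have hPpm : ∀ n : ℕ, 2 ≤ n → ∀ t B, P n t B = Pool.Agent.Helper8.UT.pm n t B := by
    intro n hn t B
    rw [hP n t B]
    exact Pool.Agent.Helper8.UT.frozen_series hn (K n) (hK n) t B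
  have hdTV : ∀ n : ℕ, 2 ≤ n → ∀ t, d n t = Pool.Agent.Helper8.UT.TV n t := by
    intro n hn t
    rw [hd n t, ← Pool.Agent.Helper8.UT.frozen_d hn (K n) (hK n) t]
    simp only [hP n t]
  have hJ := Pool.Agent.Helper8.UT.JJ_pos
  set J : ℝ := Pool.Agent.Helper8.UT.JJ with hJdef
  have hJlow : ∀ ε : ℝ, 0 < ε → ε < 1 → ∀ δ : ℝ, 0 < δ → ∀ᶠ n : ℕ in atTop,
      (1 - δ) * (1 / J / 2) * (n : ℝ) ≤ T n ε := by
    intro ε hε hε1 δ hδ
    filter_upwards [Pool.Agent.Helper8.UT.TV_low (1 - ε) (min δ (1 / 2)) (by linarith)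
      (lt_min hδ (by norm_num)), eventually_ge_atTop 2] with n h1 hn2
    rw [hT]
    apply le_csInf (hne n hn2 ε hε)
    rintro t ⟨ht0, ht⟩
    by_contra hcon
    have h5 : t ≤ (1 - min δ (1 / 2)) * n / (2 * J) := by
      refine (not_le.1 hcon).le.trans ?_
      have h6 : (1 - δ) * (n : ℝ) ≤ (1 - min δ (1 / 2)) * n :=
        mul_le_mul_of_nonneg_right (by linarith [min_le_left δ (1 / 2)]) (Nat.cast_nonneg n)
      have h7 : (1 - δ) * (1 / J / 2) * (n : ℝ) = (1 - δ) * n / (2 * J) := by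
        field_simp
      rw [h7]
      exact div_le_div_of_nonneg_right h6 (by positivity)
    have h8 := h1 t ht0 h5
    rw [← hdTV n hn2] at h8
    linarith
  have hJup : ∀ ε : ℝ, 0 < ε → ∀ δ : ℝ, 0 < δ → ∀ᶠ n : ℕ in atTop,
      T n ε ≤ (1 + δ) * (1 / J) * (n : ℝ) := by
    intro ε hε δ hδ
    have hlim : ∀ᶠ n : ℕ in atTop, 1 ≤ δ / 2 / J * (n : ℝ) :=
      (Tendsto.const_mul_atTop (by positivity) tendsto_natCast_atTop_atTop).eventually_ge_atTop 1
    filter_upwards [Pool.Agent.Helper8.UT.TV_high ε (δ / 2) hε (by linarith), hlim,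
      eventually_ge_atTop 2] with n h3 h4 hn2
    obtain ⟨t, ht0, ht1, ht⟩ := h3
    have hmem : t ∈ {t : ℝ | 0 ≤ t ∧ d n t ≤ ε} := ⟨ht0, by rw [hdTV n hn2]; exact ht⟩
    have hbdd : BddBelow {t : ℝ | 0 ≤ t ∧ d n t ≤ ε} := ⟨0, fun s hs => hs.1⟩
    rw [hT]
    refine (csInf_le hbdd hmem).trans (ht1.trans ?_)
    have e : (1 + δ) * (1 / J) * (n : ℝ) = (1 + δ / 2) * n / J + δ / 2 / J * n := by ring
    rw [e]
    linarith
  -- `1 / J ≥ 7`
  have hJ7 : 7 ≤ 1 / J := by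
    by_contra hcon
    rw [not_le] at hcon
    have hpos : 0 < 1 / J := by positivity
    set δ : ℝ := (7 / (1 / J) - 1) / 2 with hδdef
    have hδ : 0 < δ := by
      have : 1 < 7 / (1 / J) := by rw [lt_div_iff₀ hpos]; linarith
      rw [hδdef]
      linarith
    have h1 : (1 + δ) * (1 / J) < 7 := by
      have h2 : (1 + δ) * (1 / J) = (7 + 1 / J) / 2 := by
        rw [hδdef]
        field_simp
        ring
      rw [h2]
      linarith
    obtain ⟨n, ⟨h3, h4⟩, h5⟩ := (((hlow7 (1 / 2) (by norm_num) (by norm_num)).and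
      (hJup (1 / 2) (by norm_num) δ hδ)).and (eventually_ge_atTop 1)).exists
    have h6 : (0 : ℝ) < n := by exact_mod_cast h5
    nlinarith
  -- Theorem B
  have hup1 : ∀ ε : ℝ, 0 < ε → ε < 1 → ∀ᶠ n : ℕ in atTop, T n ε ≤ 2 * (1 / J) * (n : ℝ) := by
    intro ε hε _
    filter_upwards [hJup ε hε 1 one_pos] with n hn
    have e : (1 + 1 : ℝ) * (1 / J) * n = 2 * (1 / J) * n := by ring
    linarith
  have hB : ∀ δ ε η : ℝ, 0 < δ → 0 < ε → 0 < η → η < 1 → ∀ᶠ N : ℕ in atTop,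
      ∃ n' : ℕ, (n' : ℝ) ≤ (1 + δ) * N ∧
        T N ε ≤ T n' (1 - η) + 16 / 3 * ((N : ℝ) - n') + δ * N := by
    intro δ ε η hδ hε hη hη1
    exact Pool.Agent.CutSeq.thmB_T d hD T hT (2 * (1 / J)) hup1 δ ε η hδ hε hη hη1
  have hanti : ∀ n (ε ε' : ℝ), 0 < ε → ε ≤ ε' → ε' < 1 → T n ε' ≤ T n ε := by
    intro n ε ε' hε hee _
    rw [hT, hT]
    rcases Nat.lt_or_ge n 2 with hn | hn
    · have h0 : ∀ e : ℝ, 0 < e → sInf {t : ℝ | 0 ≤ t ∧ d n t ≤ e} = 0 := by
        intro e he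
        apply le_antisymm
        · exact csInf_le ⟨0, fun s hs => hs.1⟩ ⟨le_rfl, by rw [hsmall n hn]; exact he.le⟩
        · exact Real.sInf_nonneg fun t ht => ht.1
      rw [h0 ε hε, h0 ε' (by linarith)]
    · apply csInf_le_csInf ⟨0, fun s hs => hs.1⟩ (hne n hn ε hε)
      rintro t ⟨ht0, ht⟩
      exact ⟨ht0, ht.trans hee⟩
  -- windows of sizes
  have h1 : ∀ ρ ε δ : ℝ, 1 < ρ → 0 < ε → ε < 1 → 0 < δ → ∀ᶠ M : ℕ in atTop,
      ∃ N : ℕ, M ≤ N ∧ (N : ℝ) ≤ ρ * M ∧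
        T N ε ≤ (max 1 (min 29 (16 + 26 / ρ) / 21) + δ) * T N (1 - ε) := by
    intro ρ ε δ hρ hε hε1 hδ
    exact Pool.Agent.CutSeq.window_abs (fun n => T n (1 - ε)) (fun n => T n ε) (1 / J) hJ7
      (hmono (1 - ε) (by linarith)) (fun n => hT0 n _) (hlow7 (1 - ε) (by linarith) (by linarith))
      (fun δ' hδ' => hJlow (1 - ε) (by linarith) (by linarith) δ' hδ')
      (fun δ' hδ' => hJup (1 - ε) (by linarith) δ' hδ')
      (fun δ' hδ' => hB δ' ε ε hδ' hε hε hε1) ρ δ hρ hδ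
  -- almost all sizes
  have hcard : ∀ (M : ℕ) (p : ℕ → Prop) [DecidablePred p],
      {N : ℕ | N < M ∧ p N}.ncard = ((Finset.range M).filter p).card := by
    intro M p _
    rw [← Set.ncard_coe_finset]
    congr 1
    ext N
    simp
  have h2 : ∀ ε δ : ℝ, 0 < ε → ε < 1 → 0 < δ →
      Tendsto (fun M : ℕ => ({N : ℕ | N < M ∧ (29 / 21 + δ) * T N (1 - ε) < T N ε}.ncard : ℝ) / M)
        atTop (𝓝 0) := by
    intro ε δ hε hε1 hδ
    rw [Metric.tendsto_atTop]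
    intro τ hτ
    obtain ⟨M₀, hM₀⟩ := eventually_atTop.1
      ((Pool.Agent.CutSeq.almost_all_abs (fun n => T n (1 - ε)) (fun n => T n ε) (1 / J) hJ7
      (hmono (1 - ε) (by linarith)) (fun n => hT0 n _) (hlow7 (1 - ε) (by linarith) (by linarith))
      (fun δ' hδ' => hJlow (1 - ε) (by linarith) (by linarith) δ' hδ')
      (fun δ' hδ' => hJup (1 - ε) (by linarith) δ' hδ')
      (fun δ' hδ' => hB δ' ε ε hδ' hε hε hε1) δ hδ (τ / 2) (by positivity)).and
      (eventually_ge_atTop 1))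
    refine ⟨M₀, fun M hM => ?_⟩
    obtain ⟨h3, h4⟩ := hM₀ M hM
    have hM0 : (0 : ℝ) < M := by exact_mod_cast h4
    rw [hcard M fun N => (29 / 21 + δ) * T N (1 - ε) < T N ε, Real.dist_eq, sub_zero,
      abs_of_nonneg (by positivity), div_lt_iff₀ hM0]
    have h5 : 0 < τ * M := by positivity
    refine lt_of_le_of_lt h3 ?_
    linarith
  have h3 : ∀ ε δ : ℝ, 0 < ε → ε < 1 → 0 < δ → ∃ c : ℝ, 0 < c ∧ ∀ᶠ M : ℕ in atTop,
      c * M ≤ ({N : ℕ | N < M ∧ T N ε ≤ (1 + δ) * T N (1 - ε)}.ncard : ℝ) := by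
    intro ε δ hε hε1 hδ
    obtain ⟨c, hc, h⟩ := Pool.Agent.CutSeq.pos_density_abs (fun n => T n (1 - ε)) (fun n => T n ε)
      (1 / J) hJ7 (hmono (1 - ε) (by linarith)) (hlow7 (1 - ε) (by linarith) (by linarith))
      (hup1 (1 - ε) (by linarith) (by linarith))
      (fun δ' hδ' => hB δ' ε ε hδ' hε hε hε1) δ hδ
    refine ⟨c, hc, h.mono fun M hM => ?_⟩
    rw [hcard M fun N => T N ε ≤ (1 + δ) * T N (1 - ε)]
    exact hM
  refine ⟨h2, h3, h1, ?_, ?_⟩
  · intro ρ hρ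
    apply Pool.Agent.CutSeq.seq_abs T 7 (by norm_num) hanti hlow7 (26 / 5) (by norm_num) _ ρ hρ
    intro ρ' hρ' ε hε hε1 δ hδ
    filter_upwards [h1 ρ' ε δ (by linarith) hε hε1 hδ] with M hM
    obtain ⟨N, hMN, hN, hTN⟩ := hM
    refine ⟨N, hMN, hN, ?_⟩
    have hF : max 1 (min 29 (16 + 26 / ρ') / 21) = 1 := by
      apply max_eq_left
      rw [div_le_one (by norm_num)]
      apply le_trans (min_le_right _ _)
      have : 26 / ρ' ≤ 5 := by
        rw [div_le_iff₀ (by linarith)]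
        linarith
      linarith
    rw [hF] at hTN
    exact hTN
  · intro ε₀ L h0 h2 hL ε hε hε1
    exact (Pool.Agent.CutSeq.limit_abs T hmono hlow7 hB ε₀ L h0 h2 hL ε hε hε1).2

end Pool.Agent.Results.MP_3af7a4_pr.WindowCutoff
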